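import Mathlib
import Pool.Agent.H21.HornCirc

set_option autoImplicit false
open Matrix

namespace Pool.Agent.Results.MP_a20134_al.Irr

open Pool.Agent.H21.HornCirc

/-- `S` is completely positive. -/
def IsCP (S : Matrix (Fin 5) (Fin 5) ℝ) : Prop :=
  ∃ m : ℕ, ∃ C : Matrix (Fin 5) (Fin m) ℝ, (∀ i j, 0 ≤ C i j) ∧ S = C * Cᵀ

theorem result :
    ∃ A B : Matrix (Fin 5) (Fin 5) ℝ,
      (∀ i j, ∃ q : ℚ, A i j = (q : ℝ)) ∧ A.PosDef ∧ (∀ i j, 0 < A i j) ∧ IsCP A ∧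
      (∀ ε : ℝ, 0 < ε → ∃ S : Matrix (Fin 5) (Fin 5) ℝ, Sᵀ = S ∧
          (∀ i j, |S i j - A i j| < ε) ∧ ¬ IsCP S) ∧
      (∀ i j, 0 ≤ B i j) ∧ A = B * Bᵀ ∧
      (∃ i j, Irrational (B i j)) ∧ (∃ j i l, Irrational (B i j * B l j)) := by
  refine ⟨A, B, A_rat, A_posDef, A_pos, ⟨5, B, B_nonneg, A_eq⟩, A_bdry, B_nonneg, A_eq,
    ⟨0, 0, ?_⟩, ⟨0, 0, 0, ?_⟩⟩
  · rintro ⟨r, hr⟩
    exact XX_irr ⟨r * r, by rw [← hr]; push_cast; ring⟩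
  · rintro ⟨r, hr⟩
    exact XX_irr ⟨r, hr.symm⟩

end Pool.Agent.Results.MP_a20134_al.Irr
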